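import Pool.Agent.N437.SPC.Stm
import Pool.Agent.W975.SP.ST1

/-!
# SPC/EL: the theorem of Elekes along almost complete graphs
-/

set_option autoImplicit false

namespace Pool.Agent.N97.SPC

open Finset
open Pool.Agent.N437.SPC

theorem t_EL : S_EL := by
  intro H P Q h0 hP hQ
  rcases Nat.lt_or_ge H.card 2 with hc | hc
  · rcases Nat.eq_zero_or_pos H.card with h | h
    · rw [h]
      exact Nat.zero_le _
    · have h1 : H.card = 1 := by omega
      obtain ⟨y, hy⟩ := card_pos.1 h
      have hp := hP y hy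
      have hq := hQ y hy
      have hp1 : 0 < cnt (fun a b => a + b) y H P := by omega
      have hq1 : 0 < cnt (fun a b => a * b) y H Q := by omega
      have hp2 : 1 ≤ P.card := by
        obtain ⟨u, hu⟩ := card_pos.1 hp1
        exact card_pos.2 ⟨_, (mem_filter.1 hu).2⟩
      have hq2 : 1 ≤ Q.card := by
        obtain ⟨u, hu⟩ := card_pos.1 hq1
        exact card_pos.2 ⟨_, (mem_filter.1 hu).2⟩
      have hp3 : 1 ≤ P.card ^ 2 := Nat.one_le_pow _ _ hp2
      have hq3 : 1 ≤ Q.card ^ 2 := Nat.one_le_pow _ _ hq2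
      have h4 : 1 ≤ P.card ^ 2 * Q.card ^ 2 := Nat.mul_le_mul hp3 hq3
      rw [h1, one_pow, mul_assoc]
      omega
  · set k := (4 * H.card + 4) / 5 with hk
    have hst := Pool.Agent.W975.SP.st1 P Q ((H ×ˢ H).image (fun c => (c.1, -(c.1 * c.2)))) k (by omega) (by
      intro l hl
      obtain ⟨⟨a, b⟩, hab, rfl⟩ := mem_image.1 hl
      obtain ⟨ha, hb⟩ := mem_product.1 hab
      simp only at ha hb ⊢
      refine ⟨fun h => h0 (h ▸ ha), ?_⟩
      have e1 : 9 * H.card ≤ 10 * (H.filter (fun u => b + u ∈ P)).card := hP b hb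
      have e2 : 9 * H.card ≤ 10 * (H.filter (fun u => a * u ∈ Q)).card := hQ a ha
      have e3 := card_union_add_card_inter (H.filter (fun u => b + u ∈ P)) (H.filter (fun u => a * u ∈ Q))
      have e4 : (H.filter (fun u => b + u ∈ P) ∪ H.filter (fun u => a * u ∈ Q)).card ≤ H.card :=
        card_le_card (union_subset (filter_subset _ _) (filter_subset _ _))
      have e5 : k ≤ (H.filter (fun u => b + u ∈ P) ∩ H.filter (fun u => a * u ∈ Q)).card := by
        omega
      refine e5.trans ?_
      rw [← card_image_of_injective _ (add_right_injective b)]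
      refine card_le_card ?_
      intro x hx
      obtain ⟨u, hu, rfl⟩ := mem_image.1 hx
      obtain ⟨hu1, hu2⟩ := mem_inter.1 hu
      refine mem_filter.2 ⟨(mem_filter.1 hu1).2, ?_⟩
      have e6 : a * (b + u) + -(a * b) = a * u := by ring
      show a * (b + u) + -(a * b) ∈ Q
      rw [e6]
      exact (mem_filter.1 hu2).2)
    have hinj : Set.InjOn (fun c : ℝ × ℝ => (c.1, -(c.1 * c.2))) ((H ×ˢ H : Finset (ℝ × ℝ)) : Set (ℝ × ℝ)) := by
      rintro ⟨a, b⟩ hab ⟨a', b'⟩ _ h
      simp only [Prod.mk.injEq] at h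
      obtain ⟨rfl, h2⟩ := h
      have ha : a ≠ 0 := by
        rintro rfl
        exact h0 (mem_product.1 (mem_coe.1 hab)).1
      have h3 : a * b = a * b' := neg_injective h2
      rw [mul_left_cancel₀ ha h3]
    rw [card_image_of_injOn hinj, card_product] at hst
    have h5 : 4 * H.card ≤ 5 * k := by omega
    have h6 : (4 * H.card) ^ 3 ≤ (5 * k) ^ 3 := Nat.pow_le_pow_left h5 3
    have h7 : H.card * H.card * (4 * H.card) ^ 3 ≤ H.card * H.card * (5 * k) ^ 3 :=
      Nat.mul_le_mul_left _ h6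
    have e7 : H.card * H.card * (4 * H.card) ^ 3 = 64 * H.card ^ 5 := by ring
    have e8 : H.card * H.card * (5 * k) ^ 3 = 125 * (H.card * H.card * k ^ 3) := by ring
    have e9 : 512 * P.card ^ 2 * Q.card ^ 2 = 512 * (P.card ^ 2 * Q.card ^ 2) := by ring
    rw [e7, e8] at h7
    rw [e9] at hst
    rw [mul_assoc]
    omega

end Pool.Agent.N97.SPC
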